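import Pool.Agent.Helper70.DK.Defs

set_option autoImplicit false

namespace Pool.Agent.Helper70.DK

open Finset

theorem e10_one {Ω : Type} {Q : ℕ} (S : Finset Ω) (g : Ω → ℝ) (hg : ∑ y ∈ S, g y = 0) (i : Fin Q) :
    ∑ x ∈ Fintype.piFinset (fun _ : Fin Q => S), g (x i) = 0 := by
  classical
  have h1 : ∀ x : Fin Q → Ω, g (x i) = ∏ k, (if k = i then g (x k) else 1) := by
    intro x
    rw [Finset.prod_ite_eq' univ i fun k => g (x k)]
    simp
  have h2 := Finset.prod_univ_sum (fun _ : Fin Q => S) (fun k y => if k = i then g y else (1 : ℝ))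
  rw [sum_congr rfl fun x _ => h1 x, ← h2]
  refine prod_eq_zero (mem_univ i) ?_
  simpa using hg

theorem e10_two {Ω : Type} {Q : ℕ} (S : Finset Ω) (g u : Ω → ℝ) (hg : ∑ y ∈ S, g y = 0)
    (i j : Fin Q) (hij : i ≠ j) :
    ∑ x ∈ Fintype.piFinset (fun _ : Fin Q => S), g (x i) * u (x j) = 0 := by
  classical
  have h1 : ∀ x : Fin Q → Ω, g (x i) * u (x j)
      = ∏ k, ((if k = i then g (x k) else 1) * (if k = j then u (x k) else 1)) := by
    intro x
    rw [prod_mul_distrib, Finset.prod_ite_eq' univ i fun k => g (x k),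
      Finset.prod_ite_eq' univ j fun k => u (x k)]
    simp
  have h2 := Finset.prod_univ_sum (fun _ : Fin Q => S)
    (fun k y => (if k = i then g y else (1 : ℝ)) * (if k = j then u y else 1))
  rw [sum_congr rfl fun x _ => h1 x, ← h2]
  refine prod_eq_zero (mem_univ i) ?_
  simp only [if_true, if_neg hij, mul_one]
  exact hg

theorem e10_mean {Ω : Type} (S : Finset Ω) (f : Ω → ℝ) (lo w : ℝ) (hS : S.Nonempty)
    (h : ∀ x ∈ S, lo ≤ f x ∧ f x ≤ lo + w) :
    (∑ y ∈ S, (f y - (∑ y ∈ S, f y) / S.card) = 0) ∧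
      ∀ x ∈ S, (f x - (∑ y ∈ S, f y) / S.card) ^ 2 ≤ w ^ 2 := by
  have hc : (0 : ℝ) < S.card := by
    exact_mod_cast hS.card_pos
  refine ⟨?_, ?_⟩
  · rw [sum_sub_distrib, sum_const, nsmul_eq_mul]
    field_simp
    ring
  · intro x hx
    have h1 : lo ≤ (∑ y ∈ S, f y) / S.card := by
      rw [le_div_iff₀ hc]
      have := S.card_nsmul_le_sum f lo fun y hy => (h y hy).1
      rw [nsmul_eq_mul] at this
      linarith
    have h2 : (∑ y ∈ S, f y) / S.card ≤ lo + w := by
      rw [div_le_iff₀ hc]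
      have := S.sum_le_card_nsmul f (lo + w) fun y hy => (h y hy).2
      rw [nsmul_eq_mul] at this
      linarith
    obtain ⟨h3, h4⟩ := h x hx
    exact sq_le_sq' (by linarith) (by linarith)

theorem st_E10 : ST_E10 := by
  classical
  intro Ω S S' f Q lo lo' w hS hS' hf hf' A hA
  obtain ⟨hm, hv⟩ := e10_mean S f lo w hS hf
  obtain ⟨hm', hv'⟩ := e10_mean S' f lo' w hS' hf'
  set μ : ℝ := (∑ y ∈ S, f y) / S.card with hμ
  set μ' : ℝ := (∑ y ∈ S', f y) / S'.card with hμ'
  set X1 := Fintype.piFinset (fun _ : Fin Q => S) with hX1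
  set X2 := Fintype.piFinset (fun _ : Fin Q => S') with hX2
  set h : Fin Q → (Fin Q → Ω) × (Fin Q → Ω) → ℝ := fun i x =>
    if (i : ℕ) < A then f (x.1 i) - μ else f (x.2 i) - μ' with hh
  have hsum : ∀ x : (Fin Q → Ω) × (Fin Q → Ω),
      (∑ i : Fin Q, if (i : ℕ) < A then f (x.1 i) else f (x.2 i)) - (A * μ + ((Q : ℝ) - A) * μ')
        = ∑ i, h i x := by
    intro x
    have h1 : ∀ i : Fin Q, h i x = (if (i : ℕ) < A then f (x.1 i) else f (x.2 i)) -
        (if (i : ℕ) < A then μ else μ') := by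
      intro i
      simp only [hh]
      split_ifs <;> rfl
    rw [sum_congr rfl fun i _ => h1 i, sum_sub_distrib]
    congr 1
    have h2 : ∑ i : Fin Q, (if (i : ℕ) < A then μ else μ')
        = ∑ i ∈ Finset.range Q, (if i < A then μ else μ') :=
      Fin.sum_univ_eq_sum_range (fun i => if i < A then μ else μ') Q
    rw [h2]
    obtain ⟨r, rfl⟩ := Nat.exists_eq_add_of_le hA
    rw [Finset.sum_range_add]
    have h3 : ∑ x ∈ Finset.range A, (if x < A then μ else μ') = A * μ := by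
      rw [sum_congr rfl fun i hi => if_pos (Finset.mem_range.1 hi)]
      simp
    have h4 : ∑ x ∈ Finset.range r, (if A + x < A then μ else μ') = r * μ' := by
      rw [sum_congr rfl fun i _ => if_neg (by omega)]
      simp
    rw [h3, h4]
    push_cast
    ring
  have hcross : ∀ i j : Fin Q, i ≠ j → ∑ x ∈ X1 ×ˢ X2, h i x * h j x = 0 := by
    intro i j hij
    rw [sum_product]
    by_cases hi : (i : ℕ) < A
    · by_cases hj : (j : ℕ) < A
      · rw [sum_comm]
        refine sum_eq_zero fun x2 _ => ?_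
        simp only [hh, if_pos hi, if_pos hj]
        exact e10_two S (fun y => f y - μ) (fun y => f y - μ) hm i j hij
      · rw [sum_comm]
        refine sum_eq_zero fun x2 _ => ?_
        simp only [hh, if_pos hi, if_neg hj]
        rw [← sum_mul, e10_one S (fun y => f y - μ) hm i, zero_mul]
    · by_cases hj : (j : ℕ) < A
      · refine sum_eq_zero fun x1 _ => ?_
        simp only [hh, if_neg hi, if_pos hj]
        rw [← sum_mul, e10_one S' (fun y => f y - μ') hm' i, zero_mul]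
      · refine sum_eq_zero fun x1 _ => ?_
        simp only [hh, if_neg hi, if_neg hj]
        exact e10_two S' (fun y => f y - μ') (fun y => f y - μ') hm' i j hij
  have hdiag : ∀ i : Fin Q, ∑ x ∈ X1 ×ˢ X2, h i x * h i x ≤ ((X1 ×ˢ X2).card : ℝ) * w ^ 2 := by
    intro i
    rw [← nsmul_eq_mul]
    refine sum_le_card_nsmul _ _ _ fun x hx => ?_
    rw [mem_product, hX1, hX2, Fintype.mem_piFinset, Fintype.mem_piFinset] at hx
    rw [← sq]
    simp only [hh]
    split_ifs with hi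
    · exact hv _ (hx.1 i)
    · exact hv' _ (hx.2 i)
  have htot : ∑ x ∈ X1 ×ˢ X2, (∑ i, h i x) ^ 2 ≤ Q * (((X1 ×ˢ X2).card : ℝ) * w ^ 2) := by
    have h1 : ∀ x : (Fin Q → Ω) × (Fin Q → Ω), (∑ i, h i x) ^ 2 = ∑ i, ∑ j, h i x * h j x := by
      intro x
      rw [sq, sum_mul_sum]
    rw [sum_congr rfl fun x _ => h1 x, sum_comm]
    have h2 : ∀ i : Fin Q, ∑ x ∈ X1 ×ˢ X2, ∑ j, h i x * h j x = ∑ x ∈ X1 ×ˢ X2, h i x * h i x := by
      intro i
      rw [sum_comm]
      exact sum_eq_single i (fun j _ hj => hcross i j (Ne.symm hj)) (by simp)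
    rw [sum_congr rfl fun i _ => h2 i]
    calc ∑ i, ∑ x ∈ X1 ×ˢ X2, h i x * h i x ≤ ∑ _i : Fin Q, ((X1 ×ˢ X2).card : ℝ) * w ^ 2 :=
          sum_le_sum fun i _ => hdiag i
      _ = Q * (((X1 ×ˢ X2).card : ℝ) * w ^ 2) := by
          rw [sum_const, card_univ, Fintype.card_fin, nsmul_eq_mul]
  have hcard : (0 : ℝ) < ((X1 ×ˢ X2).card : ℕ) := by
    have h1 : X1.Nonempty := Fintype.piFinset_nonempty.2 fun _ => hS
    have h2 : X2.Nonempty := Fintype.piFinset_nonempty.2 fun _ => hS'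
    exact_mod_cast (h1.product h2).card_pos
  rw [div_le_iff₀ hcard, sum_congr rfl fun x _ => by rw [hsum x]]
  calc _ ≤ Q * (((X1 ×ˢ X2).card : ℝ) * w ^ 2) := htot
    _ = _ := by ring

end Pool.Agent.Helper70.DK
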